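import Pool.Agent.H992.PM.JDefs

/-!
# From the joint bound to the bound for one function
-/

set_option autoImplicit false
open MeasureTheory Filter Topology Complex ProbabilityTheory
open scoped ContDiff ENNReal

namespace Pool.Agent.H618.JM

open Pool.Agent.W745.RW (TF)
open Pool.Agent.N661.BR (MW IsRandomWave meas_eval)
open Pool.Agent.N661.BH (loc)
open Pool.Agent.N814.BHM (P mass)
open Pool.Agent.N814.BHASM (Hyp X)
open Pool.Agent.H992.LB (eγ eX)
open Pool.Agent.H992.SF (eJ eXJ On In Struct pr)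
open Pool.Agent.H992.PM

noncomputable section

theorem jp_eq {d : ℕ} (Ω : Set ℂ) (ψ : ℂ → ℝ) (lam : Fin d → ℝ) (u : Fin d → ℂ → ℝ) {k : ℕ}
    (w' : Fin d → Fin k → ℂ) (i : Fin d) (w : Fin k → ℂ) (hw : ∀ j, w' i j = w j)
    (Q : MvPolynomial (Fin k) ℝ) :
    jpMean Ω ψ lam u w' (MvPolynomial.rename (fun j => (i, j)) Q) =
      pMean Ω ψ (lam i) (u i) w Q := by
  simp only [jpMean, pMean, MvPolynomial.eval_rename, Function.comp_def, hw]

theorem int_eq {d : ℕ} (γ : Measure MW) [IsProbabilityMeasure γ] (i : Fin d) (G : MW → ℝ)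
    (hG : Measurable G) :
    ∫ F : Fin d → MW, G (F i) ∂(Measure.pi fun _ => γ) = ∫ f : MW, G f ∂γ := by
  have h := measurePreserving_eval (fun _ : Fin d => γ) i
  have h2 : AEStronglyMeasurable G (Measure.map (Function.eval i) (Measure.pi fun _ : Fin d => γ)) := by
    rw [h.map_eq]
    exact hG.aestronglyMeasurable
  have h3 := integral_map h.measurable.aemeasurable h2
  rw [h.map_eq] at h3
  exact h3.symm

theorem g_meas {k : ℕ} (w : Fin k → ℂ) (Q : MvPolynomial (Fin k) ℝ) :
    Measurable fun f : MW => MvPolynomial.eval (fun j => f (w j)) Q ^ 2 := by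
  have h1 : Measurable fun x : Fin k → ℝ => MvPolynomial.eval x Q :=
    (MvPolynomial.continuous_eval Q).measurable
  have h2 : Measurable fun f : MW => fun j => f (w j) :=
    measurable_pi_lambda _ fun j => meas_eval (w j)
  exact (h1.comp h2).pow_const 2

/-- **JP1.** -/
theorem jp1 : S_JP1 := by
  intro d Ω lam u γ hγ _ ψ U hU A hb i hi
  obtain ⟨C, hC⟩ := hb
  choose pt hpt using hU
  refine ⟨C, fun k w Q hw ε hε => ?_⟩
  classical
  obtain ⟨w', hw'⟩ : ∃ w' : Fin d → Fin k → ℂ, w' = fun i' j => if i' = i then w j else pt i' :=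
    ⟨_, rfl⟩
  have hwi : ∀ j, w' i j = w j := by
    intro j
    rw [hw']
    simp
  have h1 := hC k w' (MvPolynomial.rename (fun j => (i, j)) Q) ?_ ?_ ε hε
  · have h2 : (∫ F : Fin d → MW, MvPolynomial.eval (fun q : Fin d × Fin k => F q.1 (w' q.1 q.2))
        (MvPolynomial.rename (fun j => (i, j)) Q) ^ 2 ∂(Measure.pi fun _ => γ)) =
        ∫ f : MW, MvPolynomial.eval (fun j => f (w j)) Q ^ 2 ∂γ := by
      rw [← int_eq (d := d) γ i _ (g_meas w Q)]
      simp only [MvPolynomial.eval_rename, Function.comp_def, hwi]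
    rw [h2] at h1
    filter_upwards [h1] with n hn
    rw [jp_eq Ω ψ _ _ w' i w hwi Q] at hn
    exact hn
  · intro i' j
    rw [hw']
    by_cases h : i' = i
    · simp only [h, if_true]
      exact hw j
    · simp only [h, if_false]
      exact hpt i'
  · intro q hq
    have h3 := MvPolynomial.vars_rename (fun j : Fin k => (i, j)) Q hq
    rw [Finset.mem_image] at h3
    obtain ⟨j, _, hj⟩ := h3
    rw [← hj]
    exact hi

end

end Pool.Agent.H618.JM
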